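import Pool.Agent.H43.ODG.Lin

/-!
# Row COP of the board `odg_modules`
-/

set_option autoImplicit false

namespace Pool.Agent.H43.ODG

open Pool.Agent.H57.CP Pool.Agent.H39.TO Pool.Agent.H39.OD Pool.Agent.H50.ODG

/-- two points are independent -/
theorem h3_pair {x1 x2 : H3} (hne : x1 ≠ x2) : LinearIndependent ℝ ![x1.1, x2.1] := by
  rw [LinearIndependent.pair_iff]
  intro a b hab
  have e1 : mk x1.1 x1.1 = 1 := x1.2.1
  have e2 : mk x2.1 x2.1 = 1 := x2.2.1
  have f1 := congrArg (mk x1.1) hab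
  have f2 := congrArg (mk x2.1) hab
  rw [mk_add_right', mk_smul_right', mk_smul_right', mk_zero_right', e1] at f1
  rw [mk_add_right', mk_smul_right', mk_smul_right', mk_zero_right', e2,
    mk_comm' x2.1 x1.1] at f2
  by_cases hb : b = 0
  · rw [hb] at f1
    exact ⟨by linarith, hb⟩
  · exfalso
    have hc2 : mk x1.1 x2.1 ^ 2 = 1 := by
      have g1 : a = -b * mk x1.1 x2.1 := by linarith
      rw [g1] at f2
      have g2 : b * (1 - mk x1.1 x2.1 ^ 2) = 0 := by linear_combination f2
      rcases mul_eq_zero.1 g2 with h | h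
      · exact absurd h hb
      · linarith
    -- the vector `x2 - c x1` is orthogonal to `x1` and null
    have g3 : mk (x2.1 - mk x1.1 x2.1 • x1.1) x1.1 = 0 := by
      rw [mk_sub_left', mk_smul_left', e1, mk_comm' x2.1 x1.1]
      ring
    have g4 : mk (x2.1 - mk x1.1 x2.1 • x1.1) (x2.1 - mk x1.1 x2.1 • x1.1) = 0 := by
      rw [mk_sub_left', mk_sub_right', mk_sub_right', mk_smul_left', mk_smul_left',
        mk_smul_right', mk_smul_right', e1, e2, mk_comm' x2.1 x1.1]
      linear_combination -hc2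
    by_cases g5 : x2.1 - mk x1.1 x2.1 • x1.1 = 0
    · rw [sub_eq_zero] at g5
      have p1 : 0 < x1.1 3 := x1.2.2
      have p2 : 0 < x2.1 3 := x2.2.2
      have g6 := congrFun g5 3
      have g7 : x2.1 3 = mk x1.1 x2.1 * x1.1 3 := g6
      have g8 : 0 < mk x1.1 x2.1 := by
        rw [g7] at p2
        exact (pos_iff_pos_of_mul_pos p2).2 p1
      have g9 : mk x1.1 x2.1 = 1 := by nlinarith
      rw [g9, one_smul] at g5
      exact hne (Subtype.ext g5.symm)
    · have := mk_neg_of_orth x1 g5 g3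
      linarith

/-- the vectors fixed by a rotation with two fixed points -/
theorem fix_two (hFX3 : T_FX3) {D : V4 →ₗ[ℝ] V4} {x1 x2 : H3} {y w : V4} (hD : Lor D)
    (hdet : LinearMap.det D = 1) (hy : D y ≠ y) (h1 : D x1.1 = x1.1) (h2 : D x2.1 = x2.1)
    (hne : x1 ≠ x2) (hw : D w = w) : ∃ s t : ℝ, w = s • x1.1 + t • x2.1 := by
  by_contra hcon
  obtain ⟨t, ht, ht1, ht3⟩ := small_pt x1 w
  obtain ⟨z, s, hs, hz⟩ := norm_pt ht1 ht3
  have hDz : D z.1 = z.1 := by
    rw [hz, map_smul, map_add, map_smul, h1, hw]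
  have h12 := h3_pair hne
  have hi : LinearIndependent ℝ ![x1.1, x2.1, z.1] := by
    rw [Fintype.linearIndependent_iff]
    intro g hg
    have hg' : g 0 • x1.1 + g 1 • x2.1 + g 2 • z.1 = 0 := by
      simpa [Fin.sum_univ_three] using hg
    rw [hz] at hg'
    have hg2 : g 2 = 0 := by
      by_contra hne2
      apply hcon
      refine ⟨-(g 0 + g 2 * s) / (g 2 * s * t), -(g 1) / (g 2 * s * t), ?_⟩
      have hk : g 2 * s * t ≠ 0 := mul_ne_zero (mul_ne_zero hne2 hs.ne') ht.ne'
      have e1 : (g 2 * s * t) • w = (-(g 0 + g 2 * s)) • x1.1 + (-(g 1)) • x2.1 := by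
        have : g 0 • x1.1 + g 1 • x2.1 + g 2 • s • (x1.1 + t • w) -
            ((g 0 + g 2 * s) • x1.1 + g 1 • x2.1 + (g 2 * s * t) • w) = 0 := by
          module
        rw [hg', zero_sub, neg_eq_zero] at this
        have h5 : (g 2 * s * t) • w = -((g 0 + g 2 * s) • x1.1 + g 1 • x2.1) := by
          rw [eq_neg_iff_add_eq_zero, add_comm]
          exact this
        rw [h5]
        module
      have e2 : w = (g 2 * s * t)⁻¹ • ((g 2 * s * t) • w) := by
        rw [smul_smul, inv_mul_cancel₀ hk, one_smul]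
      rw [e2, e1, smul_add, smul_smul, smul_smul]
      congr 1 <;> · congr 1; field_simp
    rw [hg2, zero_smul, add_zero] at hg'
    obtain ⟨h5, h6⟩ := LinearIndependent.pair_iff.1 h12 _ _ hg'
    intro i
    fin_cases i
    · exact h5
    · exact h6
    · exact hg2
  rcases hFX3 D x1 x2 z hD h1 h2 hDz hi with h | ⟨n, _, h, _⟩
  · exact hy (h y)
  · rw [hdet] at h
    norm_num at h

/-- the last step -/
theorem cop_fin {R : V4 →ₗ[ℝ] V4} (hR : ∀ u v, mk (R u) (R v) = mk u v) {n : V4}
    (hn : mk n n = -1) {s : ℝ} (h : R n = s • n) : R n = n ∨ R n = -n := by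
  have h1 := hR n n
  rw [h, mk_smul_left', mk_smul_right', hn] at h1
  have h2 : (s - 1) * (s + 1) = 0 := by linarith
  rcases mul_eq_zero.1 h2 with h3 | h3
  · left
    rw [h, show s = 1 by linarith, one_smul]
  · right
    rw [h, show s = -1 by linarith, neg_one_smul]

/-- Row COP. -/
theorem pf_COP (hFX3 : T_FX3) : T_COP := by
  intro D R x y p c u hD hR hdet hRR hDx hRx hRy hDy hp hc hu hcc huu hcu
  obtain ⟨hDm, hDp⟩ := hD
  obtain ⟨hRm, hRp⟩ := hR
  have hmR : ∀ a b : V4, mk (R a) b = mk a (R b) := by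
    intro a b
    rw [← hRm a (R b), hRR]
  have hxy : x ≠ y := by
    intro h
    apply hDy
    rw [← h]
    exact hDx
  by_cases hn0 : D p.1 - p.1 = 0
  · -- `p` is fixed by `D` and `R`
    have hDp0 : D p.1 = p.1 := sub_eq_zero.1 hn0
    have hDRp : D (R p.1) = R p.1 := by
      have h1 := congrArg R hp
      rw [hRR, hDp0] at h1
      exact h1
    have hRpt : mk (R p.1) (R p.1) = 1 ∧ 0 < (R p.1) 3 := ⟨by rw [hRm]; exact p.2.1, hRp p⟩
    have hRpp : R p.1 = p.1 := by
      by_contra hne
      obtain ⟨s, t, hst⟩ := fix_two hFX3 (x1 := p) (x2 := ⟨R p.1, hRpt⟩) ⟨hDm, hDp⟩ hdet hDy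
        hDp0 hDRp (fun h => hne (congrArg Subtype.val h).symm) hDx
      apply hDy
      rw [← hRx, hst, map_add, map_smul, map_smul, hRR, map_add, map_smul, map_smul, hDRp, hDp0]
    have hxp : x ≠ p := by
      intro h
      apply hxy
      apply Subtype.ext
      rw [← hRx, h, hRpp]
    obtain ⟨s1, t1, hc'⟩ := fix_two hFX3 ⟨hDm, hDp⟩ hdet hDy hDx hDp0 hxp hc
    obtain ⟨s2, t2, hu'⟩ := fix_two hFX3 ⟨hDm, hDp⟩ hdet hDy hDx hDp0 hxp hu
    have hi : LinearIndependent ℝ ![x.1, p.1, y.1] := by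
      rw [Fintype.linearIndependent_iff]
      intro g hg
      have hg' : g 0 • x.1 + g 1 • p.1 + g 2 • y.1 = 0 := by
        simpa [Fin.sum_univ_three] using hg
      have hg2 : g 2 = 0 := by
        by_contra hne2
        apply hDy
        have h1 := congrArg D hg'
        rw [map_add, map_add, map_smul, map_smul, map_smul, hDx, hDp0, map_zero, ← hg'] at h1
        have h2 := add_left_cancel h1
        exact smul_right_injective _ hne2 h2
      rw [hg2, zero_smul, add_zero] at hg'
      have hxp2 : g 0 = 0 ∧ g 1 = 0 := LinearIndependent.pair_iff.1 (h3_pair hxp) _ _ hg'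
      intro i
      fin_cases i
      · exact hxp2.1
      · exact hxp2.2
      · exact hg2
    -- a vector orthogonal to `x`, `p`, `y`
    obtain ⟨n, hn, hnx, hnp, hny⟩ : ∃ n : V4, n ≠ 0 ∧ mk n x.1 = 0 ∧ mk n p.1 = 0 ∧
        mk n y.1 = 0 := by
      let φ : V4 →ₗ[ℝ] (Fin 3 → ℝ) := LinearMap.pi ![mkL x.1, mkL p.1, mkL y.1]
      have hk : LinearMap.ker φ ≠ ⊥ := LinearMap.ker_ne_bot_of_finrank_lt (by simp)
      obtain ⟨n, hn, hn0⟩ := (Submodule.ne_bot_iff _).1 hk
      have hφ : φ n = 0 := hn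
      refine ⟨n, hn0, ?_, ?_, ?_⟩
      · rw [mk_comm']
        exact congrFun hφ 0
      · rw [mk_comm']
        exact congrFun hφ 1
      · rw [mk_comm']
        exact congrFun hφ 2
    have hnn := mk_neg_of_orth x hn hnx
    obtain ⟨s, hs⟩ := orth_line (m := R n) hi hnn hnx hnp hny (by rw [hmR, hRx]; exact hny)
      (by rw [hmR, hRpp]; exact hnp) (by rw [hmR, hRy]; exact hnx)
    obtain ⟨t, ht, htn⟩ := normalise hnn
    refine ⟨t • n, htn, ?_, ?_, ?_, ?_, ?_⟩
    · rw [mk_smul_left', hnx, mul_zero]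
    · rw [mk_smul_left', hny, mul_zero]
    · rw [mk_smul_left', hc', mk_add_right', mk_smul_right', mk_smul_right', hnx, hnp]
      ring
    · rw [mk_smul_left', hu', mk_add_right', mk_smul_right', mk_smul_right', hnx, hnp]
      ring
    · refine cop_fin hRm htn (s := s) ?_
      rw [map_smul, hs, smul_comm]
  · -- the vector `D p - p`
    obtain ⟨n, hn⟩ : ∃ n : V4, n = D p.1 - p.1 := ⟨_, rfl⟩
    rw [← hn] at hn0
    have hF : ∀ w, D w = w → mk n w = 0 := by
      intro w hw
      rw [hn, mk_sub_left']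
      have h1 := hDm p.1 w
      rw [hw] at h1
      rw [h1, sub_self]
    have hF' : ∀ w, D (R w) = R w → mk n w = 0 := by
      intro w hw
      rw [hn, mk_sub_left', ← hp, hmR]
      have h1 := hDm (R p.1) (R w)
      rw [hw, hRm] at h1
      rw [h1, sub_self]
    have hi : LinearIndependent ℝ ![c, u, y.1] := by
      rw [Fintype.linearIndependent_iff]
      intro g hg
      have hg' : g 0 • c + g 1 • u + g 2 • y.1 = 0 := by
        simpa [Fin.sum_univ_three] using hg
      have hg2 : g 2 = 0 := by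
        by_contra hne2
        apply hDy
        have h1 := congrArg D hg'
        rw [map_add, map_add, map_smul, map_smul, map_smul, hc, hu, map_zero, ← hg'] at h1
        have h2 := add_left_cancel h1
        exact smul_right_injective _ hne2 h2
      rw [hg2, zero_smul, add_zero] at hg'
      have f1 := congrArg (mk c) hg'
      have f2 := congrArg (mk u) hg'
      rw [mk_add_right', mk_smul_right', mk_smul_right', mk_zero_right', hcu] at f1
      rw [mk_add_right', mk_smul_right', mk_smul_right', mk_zero_right', huu,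
        mk_comm' u c, hcu] at f2
      intro i
      fin_cases i
      · have : g 0 * mk c c = 0 := by linarith
        rcases mul_eq_zero.1 this with h | h
        · exact h
        · exact absurd h hcc.ne'
      · show g 1 = 0
        linarith
      · exact hg2
    have hnx : mk n x.1 = 0 := hF _ hDx
    have hny : mk n y.1 = 0 := hF' _ (by rw [hRy, hDx])
    have hnc : mk n c = 0 := hF _ hc
    have hnu : mk n u = 0 := hF _ hu
    have hnn := mk_neg_of_orth x hn0 hnx
    obtain ⟨s, hs⟩ := orth_line (m := R n) hi hnn hnc hnu hny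
      (by rw [hmR]; exact hF' _ (by rw [hRR, hc])) (by rw [hmR]; exact hF' _ (by rw [hRR, hu]))
      (by rw [hmR, hRy]; exact hnx)
    obtain ⟨t, ht, htn⟩ := normalise hnn
    refine ⟨t • n, htn, ?_, ?_, ?_, ?_, ?_⟩
    · rw [mk_smul_left', hnx, mul_zero]
    · rw [mk_smul_left', hny, mul_zero]
    · rw [mk_smul_left', hnc, mul_zero]
    · rw [mk_smul_left', hnu, mul_zero]
    · refine cop_fin hRm htn (s := s) ?_
      rw [map_smul, hs, smul_comm]

end Pool.Agent.H43.ODG
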