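import Pool.Agent.H43.ODG.COP

/-!
# Row CRF of the board `odg_modules`
-/

set_option autoImplicit false

namespace Pool.Agent.H43.ODG

open Pool.Agent.H57.CP Pool.Agent.H39.TO Pool.Agent.H39.OD Pool.Agent.H50.ODG

theorem apply_inv_self43 (g : Equiv.Perm H3) (x : H3) : g (g⁻¹ x) = x := g.apply_symm_apply x

theorem inv_apply_self43 (g : Equiv.Perm H3) (x : H3) : g⁻¹ (g x) = x := g.symm_apply_apply x

theorem iso_mul {g h : Equiv.Perm H3} (hg : IsIso g) (hh : IsIso h) : IsIso (g * h) := by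
  intro x y
  show ch (g (h x)) (g (h y)) = ch x y
  rw [hg, hh]

theorem iso_inv {g : Equiv.Perm H3} (hg : IsIso g) : IsIso g⁻¹ := by
  intro x y
  rw [← hg (g⁻¹ x) (g⁻¹ y), apply_inv_self43, apply_inv_self43]

/-- the product of two points is positive -/
theorem mk_pos (x y : H3) : 0 < mk x.1 y.1 := by
  obtain ⟨x, hx, hx3⟩ := x
  obtain ⟨y, hy, hy3⟩ := y
  show 0 < x 3 * y 3 - x 0 * y 0 - x 1 * y 1 - x 2 * y 2
  have hx' : x 3 * x 3 - x 0 * x 0 - x 1 * x 1 - x 2 * x 2 = 1 := hx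
  have hy' : y 3 * y 3 - y 0 * y 0 - y 1 * y 1 - y 2 * y 2 = 1 := hy
  have hcs : (x 0 * y 0 + x 1 * y 1 + x 2 * y 2) ^ 2 ≤
      (x 0 ^ 2 + x 1 ^ 2 + x 2 ^ 2) * (y 0 ^ 2 + y 1 ^ 2 + y 2 ^ 2) := by
    nlinarith [sq_nonneg (x 0 * y 1 - x 1 * y 0), sq_nonneg (x 0 * y 2 - x 2 * y 0),
      sq_nonneg (x 1 * y 2 - x 2 * y 1)]
  have e1 : x 0 ^ 2 + x 1 ^ 2 + x 2 ^ 2 = x 3 ^ 2 - 1 := by nlinarith
  have e2 : y 0 ^ 2 + y 1 ^ 2 + y 2 ^ 2 = y 3 ^ 2 - 1 := by nlinarith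
  have f1 : 0 ≤ x 3 ^ 2 - 1 := by rw [← e1]; positivity
  have f2 : 0 ≤ y 3 ^ 2 - 1 := by rw [← e2]; positivity
  rw [e1, e2] at hcs
  have h1 : (x 0 * y 0 + x 1 * y 1 + x 2 * y 2) ^ 2 < (x 3 * y 3) ^ 2 := by nlinarith
  have h2 := abs_lt_of_sq_lt_sq h1 (by positivity)
  have h3 := (abs_lt.1 h2).2
  linarith

/-- an involution extends to an involution -/
theorem ext_inv (hSPN : T_SPN) {C : V4 →ₗ[ℝ] V4} {c : Equiv.Perm H3} (hC : Ext C c)
    (hc : c * c = 1) (v : V4) : C (C v) = v := by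
  have h1 : C.comp C = LinearMap.id := by
    apply hSPN
    intro x
    show C (C x.1) = x.1
    rw [hC x, hC (c x)]
    have h2 : (c * c) x = x := by rw [hc]; rfl
    exact congrArg Subtype.val h2
  exact LinearMap.congr_fun h1 v

/-- conjugate of an involution -/
theorem conj_data (hEXT : T_EXT) (hSPN : T_SPN) {C : V4 →ₗ[ℝ] V4} {c h : Equiv.Perm H3}
    (hC : Ext C c) (hcI : IsIso c) (hc : c * c = 1) (hh : IsIso h) {x x' : H3}
    (hFix : ∀ v, C v = v → ∃ s t : ℝ, v = s • x.1 + t • x'.1) :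
    ∃ A : V4 →ₗ[ℝ] V4, Lor A ∧ Ext A (h * c * h⁻¹) ∧ (h * c * h⁻¹) * (h * c * h⁻¹) = 1 ∧
      (∀ v, A (A v) = v) ∧ ∀ v, A v = v → ∃ s t : ℝ, v = s • (h x).1 + t • (h x').1 := by
  obtain ⟨A, hAL, hAE⟩ := hEXT (h * c * h⁻¹) (iso_mul (iso_mul hh hcI) (iso_inv hh))
  have h2 : (h * c * h⁻¹) * (h * c * h⁻¹) = 1 := by
    have : (h * c * h⁻¹) * (h * c * h⁻¹) = h * (c * c) * h⁻¹ := by group
    rw [this, hc, mul_one, mul_inv_cancel]
  refine ⟨A, hAL, hAE, h2, ext_inv hSPN hAE h2, ?_⟩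
  intro v hv
  obtain ⟨H, _, hHE⟩ := hEXT h hh
  obtain ⟨H', _, hHE'⟩ := hEXT h⁻¹ (iso_inv hh)
  have h3 : H.comp H' = LinearMap.id := by
    apply hSPN
    intro y
    show H (H' y.1) = y.1
    rw [hHE' y, hHE (h⁻¹ y), apply_inv_self43]
  have h4 : H'.comp A = C.comp H' := by
    apply hSPN
    intro y
    show H' (A y.1) = C (H' y.1)
    rw [hAE y, hHE' _, hHE' y, hC _]
    congr 1
    show h⁻¹ (h (c (h⁻¹ y))) = c (h⁻¹ y)
    rw [inv_apply_self43]
  have h5 : C (H' v) = H' v := by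
    have := LinearMap.congr_fun h4 v
    change H' (A v) = C (H' v) at this
    rw [← this, hv]
  obtain ⟨s, t, hst⟩ := hFix _ h5
  refine ⟨s, t, ?_⟩
  have h6 := LinearMap.congr_fun h3 v
  change H (H' v) = v at h6
  rw [← h6, hst, map_add, map_smul, map_smul, hHE x, hHE x']

/-- elements of the group generated by two maps with a common fixed point -/
theorem closure_fix {a c : Equiv.Perm H3} {x : H3} (ha : a x = x) (hc : c x = x)
    {h : Equiv.Perm H3} (hh : h ∈ Subgroup.closure {a, c}) : h x = x := by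
  refine Subgroup.closure_induction (p := fun g _ => g x = x) ?_ ?_ ?_ ?_ hh
  · intro g hg
    rcases hg with rfl | hg
    · exact ha
    · rw [Set.mem_singleton_iff.1 hg]
      exact hc
  · rfl
  · intro g g' _ _ h1 h2
    show g (g' x) = x
    rw [h2, h1]
  · intro g _ h1
    rw [Equiv.Perm.inv_eq_iff_eq]
    exact h1.symm

/-- Row CRF. -/
theorem pf_CRF (hIV2 : T_IV2) (hHT3 : T_HT3) (hCJR : T_CJR) (hSQ1 : T_SQ1) (hDM3 : T_DM3)
    (hFXP : T_FXP) (hEXT : T_EXT) (hSPN : T_SPN) (_hLOR : T_LOR) : T_CRF := by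
  intro K x x' f a b c q q' m _ H hq hq' hq3 hq3'
  have ia : IsIso a := H.sa.iso
  have ib : IsIso b := H.sb.iso
  have ic : IsIso c := H.sc.iso
  have hxV : x ∈ K.V := by
    rw [H.eV]
    exact ⟨1, Subgroup.one_mem _, Or.inl rfl⟩
  have hxV' : x' ∈ K.V := by
    rw [H.eV]
    exact ⟨1, Subgroup.one_mem _, Or.inr rfl⟩
  have hli := hDM3 x x' (a * c) q (iso_mul ia ic) (by
    show a (c x) = x
    rw [H.cv, H.av]) hq3 H.o1
  have hax : (a * c) x' = a x' := by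
    show a (c x') = a x'
    rw [H.cv']
  rw [hax] at hli
  have haxV : a x' ∈ K.V := (H.sa.v x').2 hxV'
  have haa : a * a = 1 := hSQ1 a x x' (a x') ia (H.aa _ hxV) (H.aa _ hxV') (H.aa _ haxV) hli
  have hbb : b * b = 1 := hSQ1 b x x' (a x') ib (H.bb _ hxV) (H.bb _ hxV') (H.bb _ haxV) hli
  have hcc : c * c = 1 := hSQ1 c x x' (a x') ic (H.cc _ hxV) (H.cc _ hxV') (H.cc _ haxV) hli
  obtain ⟨C, hCL, hCE⟩ := hEXT c ic
  have hCC := ext_inv hSPN hCE hcc
  have hCx : C x.1 = x.1 := by rw [hCE x, H.cv]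
  have hCx' : C x'.1 = x'.1 := by rw [hCE x', H.cv']
  obtain ⟨z1, hz1V, hz1⟩ := H.c1
  rcases hIV2 C x x' hCL hCC H.ne hCx hCx' ⟨z1.1, fun h => hz1 (Subtype.ext (by
    rw [← hCE z1]
    exact h))⟩ with ⟨n, hn, hCn⟩ | hFix
  · refine ⟨n, hn, fun z _ => ?_⟩
    rw [← hCn, hCE z]
  · obtain ⟨h, hh, hhc, hha⟩ := hCJR K.V a c q ia ic H.sa.v H.sc.v H.aa H.cc H.o1' hq
    obtain ⟨h', hh', hhc', hhb⟩ := hCJR K.V b c q' ib ic H.sb.v H.sc.v H.bb H.cc H.o2' hq'
    have hhx : h x = x := closure_fix H.av H.cv hhc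
    have hhx' : h' x' = x' := closure_fix H.bv H.cv' hhc'
    obtain ⟨A, hAL, hAE, hA2, hAA, hAF⟩ := conj_data hEXT hSPN hCE ic hcc hh hFix
    obtain ⟨B, hBL, hBE, hB2, hBB, hBF⟩ := conj_data hEXT hSPN hCE ic hcc hh' hFix
    obtain ⟨a', ha'⟩ : ∃ a', a' = h * c * h⁻¹ := ⟨_, rfl⟩
    obtain ⟨b', hb'⟩ : ∃ b', b' = h' * c * h'⁻¹ := ⟨_, rfl⟩
    rw [← ha'] at hAE hA2
    rw [← hb'] at hBE hB2
    have hae : ∀ y ∈ K.V, a' y = a y := by
      intro y hy
      rw [ha', hha y hy]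
      rfl
    have hbe : ∀ y ∈ K.V, b' y = b y := by
      intro y hy
      rw [hb', hhb y hy]
      rfl
    have ia' : IsIso a' := by rw [ha']; exact iso_mul (iso_mul hh ic) (iso_inv hh)
    have ib' : IsIso b' := by rw [hb']; exact iso_mul (iso_mul hh' ic) (iso_inv hh')
    -- the common fixed point
    have hpow : ∀ (j : ℕ), ∀ y ∈ K.V, ((a' * b') ^ j) y = ((a * b) ^ j) y := by
      intro j
      induction j with
      | zero => intro y _; rfl
      | succ j ih =>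
        intro y hy
        rw [pow_succ, pow_succ]
        show ((a' * b') ^ j) (a' (b' y)) = ((a * b) ^ j) (a (b y))
        have hby : b y ∈ K.V := (H.sb.v y).2 hy
        rw [hbe y hy, hae _ hby]
        exact ih _ ((H.sa.v _).2 hby)
    obtain ⟨z0, hz0⟩ := hFXP (a' * b') m x (iso_mul ia' ib') H.m0 (by
      rw [hpow m x hxV]
      exact H.o3 x hxV)
    have hz0' : a' (b' z0) = z0 := hz0
    have ha2 : ∀ y, a' (a' y) = y := fun y => by
      have : (a' * a') y = y := by rw [hA2]; rfl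
      exact this
    have hb2 : ∀ y, b' (b' y) = y := fun y => by
      have : (b' * b') y = y := by rw [hB2]; rfl
      exact this
    have hba : b' z0 = a' z0 := by
      have h1 := congrArg a' hz0'
      rw [ha2] at h1
      exact h1
    have ht1 : 0 < mk (z0.1 + (a' z0).1) (z0.1 + (a' z0).1) := by
      rw [mk_add_left', mk_add_right', mk_add_right']
      have e1 := mk_pos z0 z0
      have e2 := mk_pos z0 (a' z0)
      have e3 := mk_pos (a' z0) z0
      have e4 := mk_pos (a' z0) (a' z0)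
      linarith
    have ht3 : 0 < (z0.1 + (a' z0).1) 3 := by
      have e1 : 0 < z0.1 3 := z0.2.2
      have e2 : 0 < (a' z0).1 3 := (a' z0).2.2
      exact add_pos e1 e2
    obtain ⟨z, s, _, hz⟩ := norm_pt ht1 ht3
    have hAz : A z.1 = z.1 := by
      rw [hz, map_smul, map_add, hAE z0, hAE (a' z0), ha2, add_comm]
    have hBz : B z.1 = z.1 := by
      rw [hz, map_smul, map_add, hBE z0, hBE (a' z0), hba, ← hba, hb2, hba, add_comm]
    have hAx : A x.1 = x.1 := by rw [hAE x, hae x hxV, H.av]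
    have hBx' : B x'.1 = x'.1 := by rw [hBE x', hbe x' hxV', H.bv]
    have hAx' : A x'.1 ≠ x'.1 := by
      rw [hAE x', hae x' hxV']
      exact fun h => H.ax (Subtype.ext h)
    have hBx : B x.1 ≠ x.1 := by
      rw [hBE x, hbe x hxV]
      exact fun h => H.bx (Subtype.ext h)
    obtain ⟨n, T, hn, _, _, hxT, hxT', hTA, hTB, hTC, hTn⟩ := hHT3 A B C x x' (h x') (h' x) z
      hAL hBL hCL hAA hBB hCC hAx hBx' hCx hCx' hAx' hBx
      (fun v hv => by
        obtain ⟨s, t, hst⟩ := hAF v hv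
        rw [hhx] at hst
        exact ⟨s, t, hst⟩)
      (fun v hv => by
        obtain ⟨s, t, hst⟩ := hBF v hv
        rw [hhx'] at hst
        exact ⟨t, s, by rw [hst, add_comm]⟩) hFix hAz hBz
    -- all vertices are in `T`
    have hstep : ∀ g ∈ G3 a b c, ∀ y : H3, (g y ∈ K.V ∧ (g y).1 ∈ T) ↔ (y ∈ K.V ∧ y.1 ∈ T) := by
      have hone : ∀ (g : Equiv.Perm H3) (G : V4 →ₗ[ℝ] V4), (∀ y, g y ∈ K.V ↔ y ∈ K.V) →
          (∀ y ∈ K.V, g (g y) = y) → (∀ y ∈ K.V, (g y).1 = G y.1) → (∀ v ∈ T, G v ∈ T) →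
          ∀ y : H3, (g y ∈ K.V ∧ (g y).1 ∈ T) ↔ (y ∈ K.V ∧ y.1 ∈ T) := by
        intro g G h1 h2 h3 h4 y
        constructor
        · rintro ⟨k1, k2⟩
          have hy := (h1 y).1 k1
          refine ⟨hy, ?_⟩
          have h5 := h3 (g y) k1
          rw [h2 y hy] at h5
          rw [h5]
          exact h4 _ k2
        · rintro ⟨k1, k2⟩
          refine ⟨(h1 y).2 k1, ?_⟩
          rw [h3 y k1]
          exact h4 _ k2
      intro g hg
      refine Subgroup.closure_induction (p := fun g _ => ∀ y : H3,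
        (g y ∈ K.V ∧ (g y).1 ∈ T) ↔ (y ∈ K.V ∧ y.1 ∈ T)) ?_ ?_ ?_ ?_ hg
      · intro g hg
        rcases hg with rfl | rfl | hg
        · exact hone _ A H.sa.v H.aa (fun y hy => by rw [hAE y, hae y hy]) hTA
        · exact hone _ B H.sb.v H.bb (fun y hy => by rw [hBE y, hbe y hy]) hTB
        · rw [Set.mem_singleton_iff.1 hg]
          exact hone c C H.sc.v H.cc (fun y _ => (hCE y).symm) hTC
      · intro y
        exact Iff.rfl
      · intro g1 g2 _ _ k1 k2 y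
        exact (k1 (g2 y)).trans (k2 y)
      · intro g1 _ k1 y
        have := k1 (g1⁻¹ y)
        rw [apply_inv_self43] at this
        exact this.symm
    refine ⟨n, hn, fun w hw => ?_⟩
    have hwT : w.1 ∈ T := by
      have hw' := hw
      rw [H.eV] at hw'
      obtain ⟨g, hg, h1 | h1⟩ := hw'
      · rw [h1]
        exact ((hstep g hg x).2 ⟨hxV, hxT⟩).2
      · rw [h1]
        exact ((hstep g hg x').2 ⟨hxV', hxT'⟩).2
    rw [← hTn _ hwT, hCE w]

end Pool.Agent.H43.ODG
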