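import Pool.Agent.H50.ODG.Targets

/-!
# Tools for the Minkowski product
-/

set_option autoImplicit false

namespace Pool.Agent.H43.ODG

open Pool.Agent.H57.CP Pool.Agent.H39.TO Pool.Agent.H39.OD Pool.Agent.H50.ODG

theorem mk_comm' (a b : V4) : mk a b = mk b a := by unfold mk; ring

theorem mk_add_left' (a b c : V4) : mk (a + b) c = mk a c + mk b c := by
  unfold mk; simp only [Pi.add_apply]; ring

theorem mk_add_right' (a b c : V4) : mk a (b + c) = mk a b + mk a c := by
  unfold mk; simp only [Pi.add_apply]; ring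

theorem mk_sub_left' (a b c : V4) : mk (a - b) c = mk a c - mk b c := by
  unfold mk; simp only [Pi.sub_apply]; ring

theorem mk_sub_right' (a b c : V4) : mk a (b - c) = mk a b - mk a c := by
  unfold mk; simp only [Pi.sub_apply]; ring

theorem mk_smul_left' (t : ℝ) (a b : V4) : mk (t • a) b = t * mk a b := by
  unfold mk; simp only [Pi.smul_apply, smul_eq_mul]; ring

theorem mk_smul_right' (t : ℝ) (a b : V4) : mk a (t • b) = t * mk a b := by
  unfold mk; simp only [Pi.smul_apply, smul_eq_mul]; ring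

theorem mk_zero_left' (a : V4) : mk 0 a = 0 := by unfold mk; simp

theorem mk_zero_right' (a : V4) : mk a 0 = 0 := by unfold mk; simp

/-- the Minkowski product as a linear map -/
noncomputable def mkL (a : V4) : V4 →ₗ[ℝ] ℝ where
  toFun v := mk a v
  map_add' u v := mk_add_right' a u v
  map_smul' t v := by simp [mk_smul_right']

/-- the product is nondegenerate -/
theorem mk_nd {v : V4} (h : ∀ w, mk v w = 0) : v = 0 := by
  have h0 := h (Pi.single 0 1)
  have h1 := h (Pi.single 1 1)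
  have h2 := h (Pi.single 2 1)
  have h3 := h (Pi.single 3 1)
  unfold mk at h0 h1 h2 h3
  simp at h0 h1 h2 h3
  funext i
  fin_cases i
  · exact h0
  · exact h1
  · exact h2
  · exact h3

/-- vectors orthogonal to a point of `H3` are spacelike -/
theorem mk_neg_of_orth {v : V4} (x : H3) (hv : v ≠ 0) (h : mk v x.1 = 0) : mk v v < 0 := by
  obtain ⟨x, hx1, hx3⟩ := x
  have h' : v 3 * x 3 - v 0 * x 0 - v 1 * x 1 - v 2 * x 2 = 0 := h
  have hx1' : x 3 * x 3 - x 0 * x 0 - x 1 * x 1 - x 2 * x 2 = 1 := hx1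
  by_contra hc
  push Not at hc
  have hc' : 0 ≤ v 3 * v 3 - v 0 * v 0 - v 1 * v 1 - v 2 * v 2 := hc
  have hcs : (v 0 * x 0 + v 1 * x 1 + v 2 * x 2) ^ 2 ≤
      (v 0 ^ 2 + v 1 ^ 2 + v 2 ^ 2) * (x 0 ^ 2 + x 1 ^ 2 + x 2 ^ 2) := by
    nlinarith [sq_nonneg (v 0 * x 1 - v 1 * x 0), sq_nonneg (v 0 * x 2 - v 2 * x 0),
      sq_nonneg (v 1 * x 2 - v 2 * x 1)]
  have e1 : v 0 * x 0 + v 1 * x 1 + v 2 * x 2 = v 3 * x 3 := by linarith
  have e2 : x 0 ^ 2 + x 1 ^ 2 + x 2 ^ 2 = x 3 ^ 2 - 1 := by nlinarith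
  rw [e1, e2] at hcs
  have hx2 : 0 ≤ x 3 ^ 2 - 1 := by rw [← e2]; positivity
  have e3 : (v 0 ^ 2 + v 1 ^ 2 + v 2 ^ 2) * (x 3 ^ 2 - 1) ≤ v 3 ^ 2 * (x 3 ^ 2 - 1) :=
    mul_le_mul_of_nonneg_right (by nlinarith) hx2
  have e4 : v 3 ^ 2 ≤ 0 := by nlinarith
  have e5 : v 3 = 0 := by nlinarith [sq_nonneg (v 3)]
  have e6 : v 0 ^ 2 + v 1 ^ 2 + v 2 ^ 2 ≤ 0 := by
    rw [e5] at hc'
    nlinarith
  have f0 : v 0 = 0 := by nlinarith [sq_nonneg (v 0), sq_nonneg (v 1), sq_nonneg (v 2)]
  have f1 : v 1 = 0 := by nlinarith [sq_nonneg (v 0), sq_nonneg (v 1), sq_nonneg (v 2)]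
  have f2 : v 2 = 0 := by nlinarith [sq_nonneg (v 0), sq_nonneg (v 1), sq_nonneg (v 2)]
  apply hv
  funext i
  fin_cases i
  · exact f0
  · exact f1
  · exact f2
  · exact e5

/-- the orthogonal complement of three independent vectors is a line -/
theorem orth_line {a b c n m : V4} (hi : LinearIndependent ℝ ![a, b, c]) (hn : mk n n < 0)
    (na : mk n a = 0) (nb : mk n b = 0) (nc : mk n c = 0) (ma : mk m a = 0) (mb : mk m b = 0)
    (mc : mk m c = 0) : ∃ s : ℝ, m = s • n := by
  have hi4 : LinearIndependent ℝ ![a, b, c, n] := by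
    rw [Fintype.linearIndependent_iff]
    intro g hg
    have hg' : g 0 • a + g 1 • b + g 2 • c + g 3 • n = 0 := by
      simpa [Fin.sum_univ_four] using hg
    have h1 : mk n (g 0 • a + g 1 • b + g 2 • c + g 3 • n) = 0 := by rw [hg', mk_zero_right']
    rw [mk_add_right', mk_add_right', mk_add_right', mk_smul_right', mk_smul_right',
      mk_smul_right', mk_smul_right', na, nb, nc] at h1
    have h3 : g 3 = 0 := by
      have : g 3 * mk n n = 0 := by linarith
      rcases mul_eq_zero.1 this with h | h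
      · exact h
      · exact absurd h hn.ne
    rw [Fintype.linearIndependent_iff] at hi
    have h4 := hi ![g 0, g 1, g 2] (by
      rw [h3, zero_smul, add_zero] at hg'
      simpa [Fin.sum_univ_three] using hg')
    intro i
    fin_cases i
    · exact h4 0
    · exact h4 1
    · exact h4 2
    · exact h3
  have hspan := hi4.span_eq_top_of_card_eq_finrank (by simp)
  have hm : m ∈ Submodule.span ℝ (Set.range ![a, b, c, n]) := by rw [hspan]; trivial
  rw [Submodule.mem_span_range_iff_exists_fun] at hm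
  obtain ⟨g, hg⟩ := hm
  have hg' : g 0 • a + g 1 • b + g 2 • c + g 3 • n = m := by
    simpa [Fin.sum_univ_four] using hg
  refine ⟨g 3, ?_⟩
  have h0 : m - g 3 • n = 0 := by
    apply mk_nd
    have ha : mk (m - g 3 • n) a = 0 := by rw [mk_sub_left', mk_smul_left', ma, na]; ring
    have hb : mk (m - g 3 • n) b = 0 := by rw [mk_sub_left', mk_smul_left', mb, nb]; ring
    have hc : mk (m - g 3 • n) c = 0 := by rw [mk_sub_left', mk_smul_left', mc, nc]; ring
    have hnn : mk (m - g 3 • n) n = 0 := by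
      have e : m - g 3 • n = g 0 • a + g 1 • b + g 2 • c := by
        rw [← hg']
        abel
      rw [e, mk_add_left', mk_add_left', mk_smul_left', mk_smul_left', mk_smul_left',
        mk_comm' a n, mk_comm' b n, mk_comm' c n, na, nb, nc]
      ring
    intro w
    have hw : w ∈ Submodule.span ℝ (Set.range ![a, b, c, n]) := by rw [hspan]; trivial
    rw [Submodule.mem_span_range_iff_exists_fun] at hw
    obtain ⟨g', hg2⟩ := hw
    have hg2' : g' 0 • a + g' 1 • b + g' 2 • c + g' 3 • n = w := by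
      simpa [Fin.sum_univ_four] using hg2
    rw [← hg2', mk_add_right', mk_add_right', mk_add_right', mk_smul_right', mk_smul_right',
      mk_smul_right', mk_smul_right', ha, hb, hc, hnn]
    ring
  rw [← sub_eq_zero]
  exact h0

/-- normalising a spacelike vector -/
theorem normalise {n : V4} (hn : mk n n < 0) : ∃ t : ℝ, t ≠ 0 ∧ mk (t • n) (t • n) = -1 := by
  refine ⟨(Real.sqrt (-mk n n))⁻¹, inv_ne_zero (Real.sqrt_pos.2 (by linarith)).ne', ?_⟩
  have h1 : 0 < Real.sqrt (-mk n n) := Real.sqrt_pos.2 (by linarith)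
  have h2 : Real.sqrt (-mk n n) * Real.sqrt (-mk n n) = -mk n n :=
    Real.mul_self_sqrt (by linarith)
  rw [mk_smul_left', mk_smul_right', ← mul_assoc, ← mul_inv, h2]
  have h3 : mk n n ≠ 0 := hn.ne
  field_simp

/-- small multiples -/
theorem small_pt (x : H3) (w : V4) : ∃ t : ℝ, 0 < t ∧ 0 < mk (x.1 + t • w) (x.1 + t • w) ∧
    0 < (x.1 + t • w) 3 := by
  have h1 : mk x.1 x.1 = 1 := x.2.1
  have h3 : 0 < x.1 3 := x.2.2
  have c1 : Filter.Tendsto (fun t : ℝ => mk (x.1 + t • w) (x.1 + t • w)) (nhds 0) (nhds 1) := by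
    have : (fun t : ℝ => mk (x.1 + t • w) (x.1 + t • w)) =
        fun t => 1 + 2 * t * mk x.1 w + t ^ 2 * mk w w := by
      funext t
      rw [mk_add_left', mk_add_right', mk_add_right', mk_smul_left', mk_smul_left',
        mk_smul_right', mk_smul_right', h1, mk_comm' w x.1]
      ring
    rw [this]
    have hc : Continuous (fun t : ℝ => 1 + 2 * t * mk x.1 w + t ^ 2 * mk w w) := by fun_prop
    have := hc.tendsto 0
    simpa using this
  have c2 : Filter.Tendsto (fun t : ℝ => (x.1 + t • w) 3) (nhds 0) (nhds (x.1 3)) := by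
    have : (fun t : ℝ => (x.1 + t • w) 3) = fun t => x.1 3 + t * w 3 := by
      funext t
      simp
    rw [this]
    have hc : Continuous (fun t : ℝ => x.1 3 + t * w 3) := by fun_prop
    have := hc.tendsto 0
    simpa using this
  have e1 := c1.eventually_const_lt (u := 0) one_pos
  have e2 := c2.eventually_const_lt (u := 0) h3
  have e3 := (e1.and e2)
  have e4 : ∀ᶠ t : ℝ in nhdsWithin 0 (Set.Ioi 0),
      0 < mk (x.1 + t • w) (x.1 + t • w) ∧ 0 < (x.1 + t • w) 3 := nhdsWithin_le_nhds e3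
  obtain ⟨t, ht, ht0⟩ := (e4.and self_mem_nhdsWithin).exists
  exact ⟨t, ht0, ht.1, ht.2⟩

/-- normalising a timelike vector -/
theorem norm_pt {v : V4} (h : 0 < mk v v) (h3 : 0 < v 3) : ∃ (z : H3) (s : ℝ), 0 < s ∧
    z.1 = s • v := by
  have h1 : 0 < Real.sqrt (mk v v) := Real.sqrt_pos.2 h
  have h2 : Real.sqrt (mk v v) * Real.sqrt (mk v v) = mk v v := Real.mul_self_sqrt h.le
  refine ⟨⟨(Real.sqrt (mk v v))⁻¹ • v, ?_, ?_⟩, (Real.sqrt (mk v v))⁻¹, by positivity, rfl⟩
  · rw [mk_smul_left', mk_smul_right', ← mul_assoc, ← mul_inv, h2]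
    exact inv_mul_cancel₀ h.ne'
  · show 0 < (Real.sqrt (mk v v))⁻¹ * v 3
    positivity

end Pool.Agent.H43.ODG
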